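import Pool.Agent.Helper70.SK.Stmts
import Pool.Agent.Helper70.SK.Lib

set_option autoImplicit false

/-! Module ANTI: entropy of the cells of a vector from the frequency of pairs at a distance. -/

namespace Pool.Agent.Helper70.SK

open Finset Pool.Agent.Helper70.DK

theorem anti_mem {Ω β : Type} (S : Finset Ω) (g : Ω → β) (c : β) (ω : Ω) :
    ω ∈ fib S g c ↔ ω ∈ S ∧ g ω = c := by
  classical
  unfold fib
  exact Finset.mem_filter

theorem anti_cell (a b s : ℤ) (hs : 0 < s) (h : |a - b| < s) :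
    a / s ∈ Finset.Icc (b / s - 1) (b / s + 1) := by
  rw [abs_lt] at h
  rw [Finset.mem_Icc]
  constructor
  · have h1 : (b - 1 * s) / s ≤ a / s := Int.ediv_le_ediv hs (by linarith)
    rw [Int.sub_mul_ediv_right _ _ hs.ne'] at h1
    exact h1
  · have h1 : a / s ≤ (b + 1 * s) / s := Int.ediv_le_ediv hs (by linarith)
    rw [Int.add_mul_ediv_right _ _ hs.ne'] at h1
    exact h1

open Classical in
theorem anti_main {Ω : Type} (q V : ℕ) (Z : Finset Ω) (hZ : Z.Nonempty) (R : Ω → Fin q → ℤ) (s : ℤ)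
    (hs : 0 < s) (hV : 2 ≤ V) (F : Finset (Fin q → ℤ)) (hF : F.card ≤ V)
    (hf : ∀ ω ∈ Z, (fun r => R ω r / s) ∈ F) :
    ent Z (fun ω r => R ω r / s) ≤ (q + 1) * Real.log 3 + Real.log V *
      ((∑ ω ∈ Z, ((Z.filter (fun ω' => ∃ r, s ≤ |R ω' r - R ω r|)).card : ℝ) / (Z.card : ℝ)) /
        (Z.card : ℝ)) := by
  have hn : (0 : ℝ) < Z.card := by exact_mod_cast hZ.card_pos
  have hlogV : 0 ≤ Real.log V := Real.log_nonneg (by exact_mod_cast (by omega : 1 ≤ V))
  -- the best base point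
  obtain ⟨ω0, hω0, hmin⟩ := Finset.exists_min_image Z
    (fun ω => ((Z.filter (fun ω' => ∃ r, s ≤ |R ω' r - R ω r|)).card : ℝ)) hZ
  obtain ⟨A, hA⟩ : ∃ A : Finset Ω, A = Z.filter (fun ω' => ¬ ∃ r, s ≤ |R ω' r - R ω0 r|) :=
    ⟨_, rfl⟩
  obtain ⟨D, hD⟩ : ∃ D : Finset Ω, D = Z.filter (fun ω' => ∃ r, s ≤ |R ω' r - R ω0 r|) :=
    ⟨_, rfl⟩
  have hav : (D.card : ℝ) / Z.card ≤
      (∑ ω ∈ Z, ((Z.filter (fun ω' => ∃ r, s ≤ |R ω' r - R ω r|)).card : ℝ) / (Z.card : ℝ)) /
        (Z.card : ℝ) := by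
    rw [le_div_iff₀ hn]
    have h1 : ∑ _ω ∈ Z, (D.card : ℝ) / (Z.card : ℝ) ≤
        ∑ ω ∈ Z, ((Z.filter (fun ω' => ∃ r, s ≤ |R ω' r - R ω r|)).card : ℝ) / (Z.card : ℝ) := by
      apply Finset.sum_le_sum
      intro ω hω
      apply div_le_div_of_nonneg_right _ hn.le
      rw [hD]
      exact hmin ω hω
    rw [Finset.sum_const, nsmul_eq_mul] at h1
    linarith
  -- the indicator
  obtain ⟨g, hg⟩ : ∃ g : Ω → Bool, g = fun ω => decide (∃ r, s ≤ |R ω r - R ω0 r|) := ⟨_, rfl⟩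
  have e1 : ent Z (fun ω r => R ω r / s) ≤ ent Z g + cent Z (fun ω r => R ω r / s) g := by
    unfold cent
    have := ent_le Z (fun ω r => R ω r / s) (fun ω => ((fun r => R ω r / s), g ω))
      (fun x _ y _ e => (Prod.ext_iff.1 e).1)
    linarith
  have e2 : ent Z g ≤ Real.log 3 := by
    have h1 := ent_card Z g (Finset.univ : Finset Bool) (fun x _ => Finset.mem_univ _)
    rw [Finset.card_univ, Fintype.card_bool] at h1
    refine h1.trans ?_
    apply Real.log_le_log (by norm_num)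
    norm_num
  have e3 : cent Z (fun ω r => R ω r / s) g = ∑ c ∈ (Finset.univ : Finset Bool),
      ((fib Z g c).card : ℝ) / (Z.card : ℝ) * ent (fib Z g c) (fun ω r => R ω r / s) :=
    st_E3 Ω (Fin q → ℤ) Bool Z (fun ω r => R ω r / s) g Finset.univ (fun x _ => Finset.mem_univ _)
  have hfT : fib Z g true = D := by
    rw [hD]
    ext ω
    rw [anti_mem, Finset.mem_filter, hg]
    simp only [decide_eq_true_eq]
  have hfF : fib Z g false = A := by
    rw [hA]
    ext ω
    rw [anti_mem, Finset.mem_filter, hg]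
    simp only [decide_eq_false_iff_not]
  have e4 : ∑ c ∈ (Finset.univ : Finset Bool),
      ((fib Z g c).card : ℝ) / (Z.card : ℝ) * ent (fib Z g c) (fun ω r => R ω r / s) =
      ((D.card : ℝ) / (Z.card : ℝ) * ent D (fun ω r => R ω r / s)) +
      ((A.card : ℝ) / (Z.card : ℝ) * ent A (fun ω r => R ω r / s)) := by
    rw [Fintype.sum_bool, hfT, hfF]
  have e5 : ent D (fun ω r => R ω r / s) ≤ Real.log V := by
    have h1 := ent_card D (fun ω r => R ω r / s) F (by
      intro x hx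
      rw [hD, Finset.mem_filter] at hx
      exact hf x hx.1)
    refine h1.trans ?_
    rcases Nat.eq_zero_or_pos F.card with h0 | h0
    · rw [h0]
      simpa using hlogV
    · apply Real.log_le_log (by exact_mod_cast h0)
      exact_mod_cast hF
  have e6 : ent A (fun ω r => R ω r / s) ≤ q * Real.log 3 := by
    have h1 := ent_card A (fun ω r => R ω r / s)
      (Fintype.piFinset (fun r => Finset.Icc (R ω0 r / s - 1) (R ω0 r / s + 1))) (by
      intro x hx
      rw [hA, Finset.mem_filter] at hx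
      rw [Fintype.mem_piFinset]
      intro r
      apply anti_cell _ _ _ hs
      by_contra hcon
      exact hx.2 ⟨r, not_lt.mp hcon⟩)
    refine h1.trans ?_
    rw [Fintype.card_piFinset]
    have h2 : ∀ r : Fin q, (Finset.Icc (R ω0 r / s - 1) (R ω0 r / s + 1)).card = 3 := by
      intro r
      rw [Int.card_Icc]
      have : R ω0 r / s + 1 + 1 - (R ω0 r / s - 1) = 3 := by ring
      rw [this]
      rfl
    rw [Finset.prod_congr rfl (fun r _ => h2 r), Finset.prod_const, Finset.card_univ,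
      Fintype.card_fin]
    push_cast
    rw [Real.log_pow]
  have hA1 : (A.card : ℝ) / Z.card ≤ 1 := by
    rw [div_le_one hn]
    rw [hA]
    exact_mod_cast Finset.card_filter_le _ _
  have e7 : (A.card : ℝ) / (Z.card : ℝ) * ent A (fun ω r => R ω r / s) ≤ q * Real.log 3 := by
    have h0 := ent_nonneg A (fun ω r => R ω r / s)
    have : (A.card : ℝ) / (Z.card : ℝ) * ent A (fun ω r => R ω r / s) ≤
        1 * ent A (fun ω r => R ω r / s) := mul_le_mul_of_nonneg_right hA1 h0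
    linarith
  have e8 : (D.card : ℝ) / (Z.card : ℝ) * ent D (fun ω r => R ω r / s) ≤ Real.log V *
      ((∑ ω ∈ Z, ((Z.filter (fun ω' => ∃ r, s ≤ |R ω' r - R ω r|)).card : ℝ) / (Z.card : ℝ)) /
        (Z.card : ℝ)) := by
    calc (D.card : ℝ) / (Z.card : ℝ) * ent D (fun ω r => R ω r / s)
        ≤ (D.card : ℝ) / (Z.card : ℝ) * Real.log V :=
          mul_le_mul_of_nonneg_left e5 (by positivity)
      _ = Real.log V * ((D.card : ℝ) / (Z.card : ℝ)) := mul_comm _ _
      _ ≤ _ := mul_le_mul_of_nonneg_left hav hlogV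
  rw [e3, e4] at e1
  have e9 : ((q : ℝ) + 1) * Real.log 3 = q * Real.log 3 + Real.log 3 := by ring
  rw [e9]
  linarith

theorem st_ANTI : ST_ANTI := by
  classical
  intro Ω α q V S R Gf s hS hs hV hF
  have hn : (0 : ℝ) < S.card := by exact_mod_cast hS.card_pos
  have e1 := st_E3 Ω (Fin q → ℤ) α S (fun ω r => R ω r / s) Gf (S.image Gf)
    (fun x hx => Finset.mem_image_of_mem Gf hx)
  rw [e1]
  have hmain : ∀ c ∈ S.image Gf, ent (fib S Gf c) (fun ω r => R ω r / s) ≤
      (q + 1) * Real.log 3 + Real.log V *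
      ((∑ ω ∈ fib S Gf c, (((fib S Gf c).filter (fun ω' => ∃ r, s ≤ |R ω' r - R ω r|)).card : ℝ) /
        ((fib S Gf c).card : ℝ)) / ((fib S Gf c).card : ℝ)) := by
    intro c hc
    obtain ⟨F, hF1, hF2⟩ := hF c
    obtain ⟨x, hx, hxc⟩ := Finset.mem_image.mp hc
    apply anti_main q V (fib S Gf c) ⟨x, (anti_mem S Gf c x).mpr ⟨hx, hxc⟩⟩
      R s hs hV F hF1
    intro ω hω
    rw [anti_mem] at hω
    exact hF2 ω hω.1 hω.2
  have hcard : ∑ c ∈ S.image Gf, ((fib S Gf c).card : ℝ) = S.card := by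
    have := Finset.card_eq_sum_card_fiberwise (f := Gf) (s := S) (t := S.image Gf)
      (fun x hx => Finset.mem_image_of_mem Gf hx)
    unfold fib
    exact_mod_cast this.symm
  have hsplit : ∑ ω ∈ S, (((fib S Gf (Gf ω)).filter
        (fun ω' => ∃ r, s ≤ |R ω' r - R ω r|)).card : ℝ) / ((fib S Gf (Gf ω)).card : ℝ) =
      ∑ c ∈ S.image Gf, ∑ ω ∈ fib S Gf c, (((fib S Gf c).filter
        (fun ω' => ∃ r, s ≤ |R ω' r - R ω r|)).card : ℝ) / ((fib S Gf c).card : ℝ) := by
    rw [← Finset.sum_fiberwise_of_maps_to (g := Gf) (s := S) (t := S.image Gf)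
      (fun x hx => Finset.mem_image_of_mem Gf hx)]
    apply Finset.sum_congr rfl
    intro c _
    apply Finset.sum_congr
    · ext ω
      rw [anti_mem, Finset.mem_filter]
    · intro ω hω
      rw [anti_mem] at hω
      rw [hω.2]
  calc ∑ c ∈ S.image Gf, ((fib S Gf c).card : ℝ) / (S.card : ℝ) *
        ent (fib S Gf c) (fun ω r => R ω r / s)
      ≤ ∑ c ∈ S.image Gf, ((fib S Gf c).card : ℝ) / (S.card : ℝ) *
        ((q + 1) * Real.log 3 + Real.log V *
      ((∑ ω ∈ fib S Gf c, (((fib S Gf c).filter (fun ω' => ∃ r, s ≤ |R ω' r - R ω r|)).card : ℝ) /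
        ((fib S Gf c).card : ℝ)) / ((fib S Gf c).card : ℝ))) :=
        Finset.sum_le_sum fun c hc => mul_le_mul_of_nonneg_left (hmain c hc) (by positivity)
    _ = ∑ c ∈ S.image Gf, (((fib S Gf c).card : ℝ) * (((q : ℝ) + 1) * Real.log 3 / S.card) +
        (∑ ω ∈ fib S Gf c, (((fib S Gf c).filter (fun ω' => ∃ r, s ≤ |R ω' r - R ω r|)).card : ℝ) /
        ((fib S Gf c).card : ℝ)) * (Real.log V / S.card)) := by
        apply Finset.sum_congr rfl
        intro c hc
        obtain ⟨x, hx, hxc⟩ := Finset.mem_image.mp hc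
        have hpos : (0 : ℝ) < ((fib S Gf c).card : ℝ) := by
          have : (fib S Gf c).Nonempty :=
            ⟨x, (anti_mem S Gf c x).mpr ⟨hx, hxc⟩⟩
          exact_mod_cast this.card_pos
        field_simp
    _ = ((q : ℝ) + 1) * Real.log 3 + Real.log V *
      ((∑ ω ∈ S, (((fib S Gf (Gf ω)).filter (fun ω' => ∃ r, s ≤ |R ω' r - R ω r|)).card : ℝ) /
        ((fib S Gf (Gf ω)).card : ℝ)) / S.card) := by
        rw [Finset.sum_add_distrib, ← Finset.sum_mul, ← Finset.sum_mul, hcard, hsplit]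
        field_simp

end Pool.Agent.Helper70.SK
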