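import Pool.Agent.Helper70.SK.Stmts
import Pool.Agent.Helper70.SK.Lib

set_option autoImplicit false

/-! Module ZO: magnification of a system. -/

namespace Pool.Agent.Helper70.SK

open Finset Pool.Agent.Helper70.DK

theorem zo_mem_gr {k M : ℕ} {x : Fin k → ℤ} : x ∈ gr k M ↔ ∀ c, 0 ≤ x c ∧ x c < (M : ℤ) := by
  unfold gr
  rw [Fintype.mem_piFinset]
  simp only [Finset.mem_Ico]

/-- the magnified points are points of the grid -/
theorem zo_mem {m B n k : ℕ} (hB : 2 ≤ B) (hk : k ≤ n) {T z : Fin m → ℤ} (hT : T ∈ gr m (B ^ k))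
    (hz : z ∈ gr m (B ^ (n - k))) : (fun c => (B : ℤ) ^ (n - k) * T c + z c) ∈ gr m (B ^ n) := by
  rw [zo_mem_gr] at hT hz ⊢
  intro c
  obtain ⟨h1, h2⟩ := hT c
  obtain ⟨h3, h4⟩ := hz c
  have hB0 : (0 : ℤ) < B := by exact_mod_cast (by omega : 0 < B)
  have hM : (0 : ℤ) < (B : ℤ) ^ (n - k) := by positivity
  push_cast at h2 h4 ⊢
  constructor
  · have : 0 ≤ (B : ℤ) ^ (n - k) * T c := mul_nonneg hM.le h1
    linarith
  · have e : (B : ℤ) ^ n = (B : ℤ) ^ (n - k) * (B : ℤ) ^ k := by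
      rw [← pow_add]
      congr 1
      omega
    rw [e]
    have h5 : (B : ℤ) ^ (n - k) * (T c + 1) ≤ (B : ℤ) ^ (n - k) * (B : ℤ) ^ k :=
      mul_le_mul_of_nonneg_left (by omega) hM.le
    have h6 : (B : ℤ) ^ (n - k) * (T c + 1) = (B : ℤ) ^ (n - k) * T c + (B : ℤ) ^ (n - k) := by
      ring
    linarith

/-- cells of the magnified points -/
theorem zo_div {B n k k' : ℕ} (hB : 2 ≤ B) (hk' : k' ≤ n - k) (t z : ℤ) :
    ((B : ℤ) ^ (n - k) * t + z) / (B : ℤ) ^ (n - (k + k')) =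
      (B : ℤ) ^ k' * t + z / (B : ℤ) ^ (n - k - k') := by
  have hB0 : (0 : ℤ) < B := by exact_mod_cast (by omega : 0 < B)
  have e1 : n - (k + k') = n - k - k' := by omega
  have e2 : (B : ℤ) ^ (n - k) = (B : ℤ) ^ (n - k - k') * (B : ℤ) ^ k' := by
    rw [← pow_add]
    congr 1
    omega
  rw [e1, e2]
  have hM : (B : ℤ) ^ (n - k - k') ≠ 0 := by positivity
  have e3 : (B : ℤ) ^ (n - k - k') * (B : ℤ) ^ k' * t + z =
      z + ((B : ℤ) ^ k' * t) * (B : ℤ) ^ (n - k - k') := by ring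
  rw [e3, Int.add_mul_ediv_right _ _ hM]
  ring

theorem st_ZO : ST_ZO := by
  intro m q B R κ D C σ hB hO k hk T hT
  have hB0 : (0 : ℤ) < B := by exact_mod_cast (by omega : 0 < B)
  have hX : ∀ z : Fin m → ℤ, z ∈ (σ.zo B k T).X B → z ∈ gr m (B ^ (σ.n - k)) := fun z hz => hz
  refine ⟨?_, ?_, ?_, ?_⟩
  · refine ⟨hO.ne, ?_, ?_, hO.tb, hO.nb, hO.nd, hO.fr, ?_⟩
    · exact le_trans (Nat.sub_le _ _) hO.n1
    · exact le_trans (Nat.sub_le _ _) hO.n3
    · intro k' hk' z hz z' hz' htr c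
      have hk'2 : k' ≤ σ.n - k := hk'
      have h1 : (fun c => (B : ℤ) ^ (σ.n - k) * T c + z c) ∈ σ.X B := zo_mem hB hk hT (hX z hz)
      have h2 : (fun c => (B : ℤ) ^ (σ.n - k) * T c + z' c) ∈ σ.X B := zo_mem hB hk hT (hX z' hz')
      have h3 : σ.tr B (k + k') (fun c => (B : ℤ) ^ (σ.n - k) * T c + z c) =
          σ.tr B (k + k') (fun c => (B : ℤ) ^ (σ.n - k) * T c + z' c) := by
        funext c'
        have h4 : z c' / (B : ℤ) ^ (σ.n - k - k') = z' c' / (B : ℤ) ^ (σ.n - k - k') :=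
          congrFun htr c'
        show ((B : ℤ) ^ (σ.n - k) * T c' + z c') / (B : ℤ) ^ (σ.n - (k + k')) =
          ((B : ℤ) ^ (σ.n - k) * T c' + z' c') / (B : ℤ) ^ (σ.n - (k + k'))
        rw [zo_div hB hk'2, zo_div hB hk'2, h4]
      have h5 := hO.st (k + k') (by omega) _ h1 _ h2 h3 c
      have e1 : σ.n - (k + k') = σ.n - k - k' := by omega
      rw [e1] at h5
      have e2 : (((σ.zo B k T).A z c : ℤ) : ℝ) - (((σ.zo B k T).A z' c : ℤ) : ℝ) =
          ((σ.A (fun c => (B : ℤ) ^ (σ.n - k) * T c + z c) c : ℤ) : ℝ) -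
          ((σ.A (fun c => (B : ℤ) ^ (σ.n - k) * T c + z' c) c : ℤ) : ℝ) := by
        show (((σ.A (fun c => (B : ℤ) ^ (σ.n - k) * T c + z c) c -
          σ.A (fun c' => (B : ℤ) ^ (σ.n - k) * T c') c : ℤ)) : ℝ) -
          (((σ.A (fun c => (B : ℤ) ^ (σ.n - k) * T c + z' c) c -
          σ.A (fun c' => (B : ℤ) ^ (σ.n - k) * T c') c : ℤ)) : ℝ) = _
        push_cast
        ring
      rw [e2]
      exact h5
  · intro l
    show σ.n - k + σ.a1 + σ.a3 - l = σ.n + σ.a1 + σ.a3 - (k + l)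
    omega
  · refine ⟨?_, ?_, ?_⟩
    · intro z hz
      have hz' := hX z hz
      unfold Sy.Zt
      rw [Finset.coe_filter]
      refine ⟨zo_mem hB hk hT hz', ?_⟩
      funext c
      show ((B : ℤ) ^ (σ.n - k) * T c + z c) / (B : ℤ) ^ (σ.n - k) = T c
      rw [zo_mem_gr] at hz'
      obtain ⟨h3, h4⟩ := hz' c
      push_cast at h4
      have hM : (B : ℤ) ^ (σ.n - k) ≠ 0 := by positivity
      rw [Int.mul_add_ediv_left _ _ hM, Int.ediv_eq_zero_of_lt h3 h4]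
      ring
    · intro z _ z' _ h
      funext c
      have := congrFun h c
      simp only at this
      linarith
    · intro x hx
      unfold Sy.Zt at hx
      rw [Finset.coe_filter] at hx
      obtain ⟨hx1, hx2⟩ := hx
      have hM : (0 : ℤ) < (B : ℤ) ^ (σ.n - k) := by positivity
      have hxT : ∀ c, x c / (B : ℤ) ^ (σ.n - k) = T c := fun c => congrFun hx2 c
      refine ⟨fun c => x c % (B : ℤ) ^ (σ.n - k), ?_, ?_⟩
      · show _ ∈ gr m (B ^ (σ.n - k))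
        rw [zo_mem_gr]
        intro c
        push_cast
        exact ⟨Int.emod_nonneg _ hM.ne', Int.emod_lt_of_pos _ hM⟩
      · funext c
        show (B : ℤ) ^ (σ.n - k) * T c + x c % (B : ℤ) ^ (σ.n - k) = x c
        rw [← hxT c]
        exact Int.mul_ediv_add_emod _ _
  · intro γ z hz r
    show ∑ c, σ.N γ r c * ((B : ℤ) ^ σ.a3 * (σ.A (fun c => (B : ℤ) ^ (σ.n - k) * T c + z c) c -
        σ.A (fun c' => (B : ℤ) ^ (σ.n - k) * T c') c) + σ.t γ * z c) =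
      ∑ c, σ.N γ r c * ((B : ℤ) ^ σ.a3 * σ.A (fun c => (B : ℤ) ^ (σ.n - k) * T c + z c) c +
        σ.t γ * ((B : ℤ) ^ (σ.n - k) * T c + z c)) -
      ∑ c, σ.N γ r c * ((B : ℤ) ^ σ.a3 * σ.A (fun c => (B : ℤ) ^ (σ.n - k) * T c) c +
        σ.t γ * ((B : ℤ) ^ (σ.n - k) * T c))
    rw [← Finset.sum_sub_distrib]
    apply Finset.sum_congr rfl
    intro c _
    ring

end Pool.Agent.Helper70.SK
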